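import Pool.Agent.H55.T3.S11
import Pool.Agent.H55.T3.S12
import Pool.Agent.H55.T3.BadE
import Pool.Agent.H55.T3.NF
import Pool.Agent.H55.TE.Qe

/-!
The three-primary part of the Tate-Shafarevich group in cyclotomic towers over totally real fields
`k` unramified above three, for the elliptic curves over `k` with a `k`-rational subgroup of order
three.
-/

set_option autoImplicit false
open scoped Classical

namespace Pool.Agent.Results.MP_78d38b_nt.ThreeIsogenyTowers

open NumberField IsDedekindDomain WeierstrassCurve Pool.Agent.H10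

/-- `κ` is totally real and contained in a Galois extension of the rationals whose degree over a
subfield of a cyclotomic field is a power of three. -/
def ThreeType (κ : Type) [Field κ] [NumberField κ] : Prop :=
  IsTotallyReal κ ∧ ∃ (F : Type) (_ : Field F) (_ : NumberField F) (F₀ : IntermediateField ℚ F),
    IsGalois ℚ F ∧ (∃ m : ℕ, m ≠ 0 ∧ Nonempty (F₀ →+* CyclotomicField m ℚ)) ∧
    (∃ r : ℕ, Module.finrank F₀ F = 3 ^ r) ∧ Nonempty (κ →+* F)

/-- `D` is a square in a field of three-type which contains `k`. -/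
def SquareThreeType (k : Type) [Field k] [NumberField k] (D : 𝓞 k) : Prop :=
  ∃ (κ : Type) (_ : Field κ) (_ : NumberField κ) (_ : Algebra k κ) (t : κ),
    ThreeType κ ∧ t ^ 2 = algebraMap k κ D

/-- `L` is a totally real field between `k` and `k(ζ_{p^n})` for some `n`. -/
def Layer (p : ℕ) (k L : Type) [Field k] [NumberField k] [Field L] [NumberField L]
    [Algebra k L] : Prop :=
  IsTotallyReal L ∧ ∃ n : ℕ, Nonempty (L →ₐ[k] CyclotomicField (p ^ (n + 1)) k)

/-- The curve `y^2 = x^3 + D (a x + b)^2`, with the group of order three of the points with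
`x = 0`. -/
def curve {K : Type} [Field K] (D a b : K) : WeierstrassCurve K :=
  ⟨0, D * a ^ 2, 0, 2 * D * a * b, D * b ^ 2⟩

/-- The curve `y^2 = x^3 - 27 D (a x + c)^2`, `c = 27 b - 4 D a^3`, the quotient of `curve D a b`
by its group of order three. -/
def dual {K : Type} [Field K] (D a b : K) : WeierstrassCurve K :=
  ⟨0, -27 * D * a ^ 2, 0, -54 * D * a * (27 * b - 4 * D * a ^ 3),
    -27 * D * (27 * b - 4 * D * a ^ 3) ^ 2⟩

/-- Restriction is a bijection from the three-primary part of the Tate-Shafarevich group of `E`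
over `K` to the one over `L`, and the group of the points over `K` has an exponent prime to three
in the group of the points over `L`. -/
def Stable (K L : Type) [Field K] [NumberField K] [Field L] [NumberField L] [Algebra K L]
    (E : WeierstrassCurve K) : Prop :=
  H55T3.ShaThreeBijective K E L ∧
    ∃ m : ℕ, ¬ 3 ∣ m ∧ ∀ P : (E.baseChange L).toAffine.Point,
      ∃ Q : (E.baseChange K).toAffine.Point,
        m • P = WeierstrassCurve.Affine.Point.map (Algebra.ofId K L) Q

/-- `P` is a set of points which represents all classes modulo `3 E(L)`. -/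
def RepresentsPoints (L : Type) [Field L] (W : WeierstrassCurve L)
    (P : Finset W.toAffine.Point) : Prop :=
  ∀ X : W.toAffine.Point, ∃ p ∈ P, ∃ S : W.toAffine.Point, X = p + 3 • S

/-- `T` is a set of cochains which represents all classes of the Tate-Shafarevich group which are
killed by three. -/
def RepresentsSha (L : Type) [Field L] [NumberField L] (W : WeierstrassCurve L)
    (T : Finset ((AlgebraicClosure L ≃ₐ[L] AlgebraicClosure L) →
      (W.baseChange (AlgebraicClosure L)).toAffine.Point)) : Prop :=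
  ∀ f, IsCocycle L W f → IsLocTriv L W f → IsCobound L W (fun σ => 3 • f σ) →
    ∃ t ∈ T, IsCobound L W (fun σ => f σ - t σ)

/-- Both curves are elliptic, `k` is unramified above three and `D` is not divisible by the square
of a prime above three. -/
def Admissible (k : Type) [Field k] [NumberField k] (D a b : 𝓞 k) : Prop :=
  D ≠ 0 ∧ b ≠ 0 ∧ 27 * b - 4 * D * a ^ 3 ≠ 0 ∧
    ∀ v : HeightOneSpectrum (𝓞 k), (3 : 𝓞 k) ∈ v.asIdeal →
      (3 : 𝓞 k) ∉ v.asIdeal ^ 2 ∧ D ∉ v.asIdeal ^ 2

/-- The good triples `(D, a, b)` at a prime `v` above three. -/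
def Good {k : Type} [Field k] [NumberField k] (v : HeightOneSpectrum (𝓞 k)) (D a b : 𝓞 k) : Prop :=
  (D ∉ v.asIdeal ∧ ∃ i : ℕ, a ∈ v.asIdeal ^ (i + 1) ∧
    27 * b - 4 * D * a ^ 3 ∈ v.asIdeal ^ (3 * i + 5) ∧ b ∉ v.asIdeal ^ (3 * i + 3)) ∨
  (D ∈ v.asIdeal ∧ ∃ i : ℕ, a ∈ v.asIdeal ^ (i + 1) ∧
    b ∈ v.asIdeal ^ (3 * i + 1) ∧ b ∉ v.asIdeal ^ (3 * i + 3))

/-- The curves `curve D a b` and `dual D a b` are stable in the tower over `k` from some level
on. -/
def StableTower (p : ℕ) (k : Type) [Field k] [NumberField k] (D a b : 𝓞 k) : Prop :=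
  ∃ N : ℕ, ∀ (K L : Type) [Field K] [NumberField K] [Field L] [NumberField L]
    [Algebra k K] [Algebra k L] [Algebra K L] [IsScalarTower k K L], Layer p k L →
    (∃ j : ℕ, Module.finrank K L = p ^ j) → p ^ N ∣ Module.finrank ℚ K →
      Stable K L (curve (algebraMap k K D) (algebraMap k K a) (algebraMap k K b)) ∧
        Stable K L (dual (algebraMap k K D) (algebraMap k K a) (algebraMap k K b))

/-- In the tower over `k` the product of the numbers of the classes of the points modulo `3` and of
the elements of order dividing `3` in the Tate-Shafarevich group of `dual D a b` is at least a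
constant times `q^[L : k]`. -/
def Grows (p : ℕ) (k : Type) [Field k] [NumberField k] (D a b : 𝓞 k) (q : ℕ) : Prop :=
  ∃ C : ℕ, ∀ (L : Type) [Field L] [NumberField L] [Algebra k L], Layer p k L →
    ∀ P T, RepresentsPoints L
        (dual (algebraMap k L D) (algebraMap k L a) (algebraMap k L b)) P →
      RepresentsSha L (dual (algebraMap k L D) (algebraMap k L a) (algebraMap k L b)) T →
        q ^ Module.finrank k L ≤ C * (P.card * T.card)

/-- The classes of the points modulo `3` and the elements of order dividing `3` in the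
Tate-Shafarevich group have representatives the product of whose numbers is at most `M`. -/
def AtMost (L : Type) [Field L] [NumberField L] (W : WeierstrassCurve L) (M : ℕ) : Prop :=
  ∃ P T, RepresentsPoints L W P ∧ RepresentsSha L W T ∧ P.card * T.card ≤ M

/-- In the tower over `k` this product is at most a constant times `q^[L : k]`, for the two curves
`curve D a b` and `dual D a b`. -/
def GrowsAtMost (p : ℕ) (k : Type) [Field k] [NumberField k] (D a b : 𝓞 k) (q : ℕ) : Prop :=
  ∃ C : ℕ, ∀ (L : Type) [Field L] [NumberField L] [Algebra k L], Layer p k L →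
    AtMost L (curve (algebraMap k L D) (algebraMap k L a) (algebraMap k L b))
        (C * q ^ Module.finrank k L) ∧
      AtMost L (dual (algebraMap k L D) (algebraMap k L a) (algebraMap k L b))
        (C * q ^ Module.finrank k L)

/-- Let `E : y^2 = x^3 + D (a x + b)^2` and `E' : y^2 = x^3 - 27 D (a x + 27 b - 4 D a^3)^2` be
elliptic curves over a number field `k` which is unramified above three, with coefficients in the
ring of integers, `v^2 ∤ D` for all primes `v` above three, let `p ≥ 5` be a prime and `q` the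
product of the norms of the primes above three which are not good. If `√D` is in a field of
three-type then, in the tower of the totally real fields `L` between `k` and `k(ζ_{p^∞})`, the
orders of the three-Selmer groups of `E` and `E'` are at most a constant times `q^[L : k]`, and if
`q = 1`, the three-primary parts of the Tate-Shafarevich groups of `E` and `E'` are stable. If `k`
is totally real and `D` is totally positive, then the order of the three-Selmer group of `E'` is at
least a constant times `q^[L : k]`. Every elliptic curve over the rationals with a rational subgroup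
of order three is one of these curves, with `D` a positive integer, so either it is stable for all
`p ≥ 5`, or the order of the three-Selmer group of `E'` has the exact order of growth `3^[L : ℚ]` for
all `p ≥ 5`. -/
theorem result :
    (∀ (k : Type) [Field k] [NumberField k] (D a b : 𝓞 k), Admissible k D a b →
      ∀ (p : ℕ) [Fact p.Prime], 5 ≤ p → ∀ S : Finset (HeightOneSpectrum (𝓞 k)),
      (∀ v, v ∈ S ↔ (3 : 𝓞 k) ∈ v.asIdeal ∧ ¬ Good v D a b) →
      (SquareThreeType k D → (S = ∅ → StableTower p k D a b) ∧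
        GrowsAtMost p k D a b (∏ v ∈ S, Ideal.absNorm v.asIdeal)) ∧
      (IsTotallyReal k → (∀ φ : k →+* ℝ, 0 < φ D) →
        Grows p k D a b (∏ v ∈ S, Ideal.absNorm v.asIdeal))) ∧
    (∀ (k : Type) [Field k] [NumberField k], ThreeType k → ∀ D : ℕ, D ≠ 0 →
      SquareThreeType k (D : 𝓞 k)) ∧
    (∀ E : WeierstrassCurve ℚ, E.IsElliptic → (∃ x : ℚ, E.Ψ₃.eval x = 0) →
      ∃ (D : ℕ) (a b : ℤ) (u : VariableChange ℚ), Admissible ℚ D a b ∧
        (u • E = curve (D : ℚ) (a : ℚ) (b : ℚ) ∨ u • E = dual (D : ℚ) (a : ℚ) (b : ℚ)) ∧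
        ((∀ (p : ℕ) [Fact p.Prime], 5 ≤ p → StableTower p ℚ D a b) ∨
          (∀ (p : ℕ) [Fact p.Prime], 5 ≤ p → Grows p ℚ D a b 3 ∧ GrowsAtMost p ℚ D a b 3))) := by
  have eW : ∀ {K : Type} [Field K] (D a b : K), curve D a b = H55T3.curWD D a b :=
    fun _ _ _ => rfl
  have eV : ∀ {K : Type} [Field K] (D a b : K),
      dual D a b = H55T3.curVD D a (27 * b - 4 * D * a ^ 3) := fun _ _ _ => rfl
  have hA : ∀ (k : Type) [Field k] [NumberField k] (D a b : 𝓞 k), Admissible k D a b →
      ∀ (p : ℕ) [Fact p.Prime], 5 ≤ p → ∀ S : Finset (HeightOneSpectrum (𝓞 k)),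
      (∀ v, v ∈ S ↔ (3 : 𝓞 k) ∈ v.asIdeal ∧ ¬ Good v D a b) →
      (SquareThreeType k D → (S = ∅ → StableTower p k D a b) ∧
        GrowsAtMost p k D a b (∏ v ∈ S, Ideal.absNorm v.asIdeal)) ∧
      (IsTotallyReal k → (∀ φ : k →+* ℝ, 0 < φ D) →
        Grows p k D a b (∏ v ∈ S, Ideal.absNorm v.asIdeal)) := by
    intro k _ _ D a b ⟨hD, hb, hc, hv⟩ p _ hp S hS
    have eγ : ((27 * b - 4 * D * a ^ 3 : 𝓞 k) : k) = 27 * (b : k) - 4 * (D : k) * (a : k) ^ 3 :=
      H55T3.coe_gammaO
    refine ⟨fun hκ => ?_, fun hk hpos => ?_⟩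
    swap
    · obtain ⟨C, hC⟩ := H55T3.growth_layD p hp hk (fun v h3 => (hv v h3).1) hpos
        (fun v h3 => (hv v h3).2) hb hc S (fun v h => ((hS v).1 h).1) (fun v h => ((hS v).1 h).2)
      exact ⟨C, fun L _ _ _ hL P T hP hT => hC L hL _ rfl P T hP hT⟩
    obtain ⟨κ, _, _, _, t, hκ, ht, hgen⟩ := H55T3.sq_gen (k := k) (D := (D : k)) hκ
    refine ⟨fun hS0 => ?_, ?_⟩
    · have hg : ∀ v : HeightOneSpectrum (𝓞 k), (3 : 𝓞 k) ∈ v.asIdeal → Good v D a b := by
        intro v h3
        by_contra hcon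
        have h := (hS v).2 ⟨h3, hcon⟩
        rw [hS0] at h
        exact Finset.notMem_empty v h
      obtain ⟨N, hN⟩ := H55T3.towerKD p hp hκ hgen ht hD (fun v h3 => (hv v h3).1)
        (fun v h3 => (hv v h3).2) hb hc hg
      refine ⟨N, ?_⟩
      intro K L _ _ _ _ _ _ _ _ hL hj hK
      have h := hN K L hL hj hK
      refine ⟨h _ (Or.inl (eW _ _ _)), h _ (Or.inr ?_)⟩
      rw [eV]
      congr 1
      rw [eγ, map_sub, map_mul, map_mul, map_mul, map_pow, map_ofNat, map_ofNat]
    · obtain ⟨C, hC⟩ := H55E.uniform_bound p hp hκ hgen ht hD (fun v h3 => (hv v h3).1)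
        (fun v h3 => (hv v h3).2) hb hc S (fun v h3 hvS => by
          by_contra hcon
          exact hvS ((hS v).2 ⟨h3, hcon⟩))
      refine ⟨C, fun L _ _ _ hL => ⟨?_, ?_⟩⟩
      · obtain ⟨h1, h2⟩ := hC L hL _ (Or.inl (eW _ _ _))
        obtain ⟨P, T, hP, hT, hPT⟩ := H55E.points_of_rep3 h2
        exact ⟨P, T, hP, hT, hPT⟩
      · obtain ⟨h1, h2⟩ := hC L hL (dual (algebraMap k L D) (algebraMap k L a) (algebraMap k L b))
          (Or.inr (by
            rw [eV]
            congr 1
            rw [eγ, map_sub, map_mul, map_mul, map_mul, map_pow, map_ofNat, map_ofNat]))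
        obtain ⟨P, T, hP, hT, hPT⟩ := H55E.points_of_rep3 h2
        exact ⟨P, T, hP, hT, hPT⟩
  have hB : ∀ (k : Type) [Field k] [NumberField k], ThreeType k → ∀ D : ℕ, D ≠ 0 →
      SquareThreeType k (D : 𝓞 k) := by
    intro k _ _ hk D hD
    obtain ⟨κ, _, _, _, t, hκ, ht⟩ := H55T3.sqType_nat hk hD
    exact ⟨κ, inferInstance, inferInstance, inferInstance, t, hκ, by
      rw [ht]
      congr 1⟩
  refine ⟨hA, hB, ?_⟩
  · intro E hE ⟨x, hx⟩
    obtain ⟨u, D, a, b, hsq, hb, hc, hu⟩ := H55T3.normal_form E hE hx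
    have hb' : (b : 𝓞 ℚ) ≠ 0 := by exact_mod_cast hb
    have hc' : 27 * (b : 𝓞 ℚ) - 4 * (D : 𝓞 ℚ) * (a : 𝓞 ℚ) ^ 3 ≠ 0 := by exact_mod_cast hc
    have hD' : (D : 𝓞 ℚ) ≠ 0 := by exact_mod_cast hsq.ne_zero
    have hadm : Admissible ℚ (D : 𝓞 ℚ) (a : 𝓞 ℚ) (b : 𝓞 ℚ) :=
      ⟨hD', hb', hc', fun v h3 => ⟨H55T3.unr3_rat v h3, H55T3.rat_sqf hsq h3⟩⟩
    refine ⟨D, a, b, u, hadm, hu, ?_⟩
    obtain ⟨v, h3⟩ := H55T3.exists_rat3
    have huniq : ∀ w : HeightOneSpectrum (𝓞 ℚ), (3 : 𝓞 ℚ) ∈ w.asIdeal → w = v := by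
      intro w hw
      exact HeightOneSpectrum.ext ((H55T3.rat_span hw).trans (H55T3.rat_span h3).symm)
    by_cases hg : Good v (D : 𝓞 ℚ) (a : 𝓞 ℚ) (b : 𝓞 ℚ)
    · exact Or.inl fun p _ hp => ((hA ℚ _ _ _ hadm p hp ∅ (fun w => by
        constructor
        · intro h
          exact absurd h (Finset.notMem_empty w)
        · rintro ⟨h1, h2⟩
          exact absurd (huniq w h1 ▸ hg) h2)).1 (hB ℚ H55T3.lType_rat D hsq.ne_zero)).1 rfl
    · right
      intro p _ hp
      have h1 := hA ℚ _ _ _ hadm p hp {v} (fun w => by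
        rw [Finset.mem_singleton]
        constructor
        · rintro rfl
          exact ⟨h3, hg⟩
        · rintro ⟨h1, -⟩
          exact huniq w h1)
      rw [Finset.prod_singleton, H55T3.rat_norm h3] at h1
      exact ⟨h1.2 inferInstance (fun φ => by
        have e : ((D : 𝓞 ℚ) : ℚ) = (D : ℚ) := map_natCast (algebraMap (𝓞 ℚ) ℚ) D
        rw [e, map_natCast]
        exact_mod_cast Nat.pos_of_ne_zero hsq.ne_zero),
        (h1.1 (hB ℚ H55T3.lType_rat D hsq.ne_zero)).2⟩

end Pool.Agent.Results.MP_78d38b_nt.ThreeIsogenyTowers
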