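import Pool.Agent.H55.T3.Ex6
import Pool.Agent.H55.T3.Exw
import Pool.Agent.H55.T3.Bad

/-!
The three-primary part of the Tate-Shafarevich group in cyclotomic towers over totally real
three-extensions `k` of the rationals, for all elliptic curves over `k` with a `k`-rational point of
order three.
-/

set_option autoImplicit false
open scoped Classical

namespace Pool.Agent.H55.Draft

open NumberField IsDedekindDomain WeierstrassCurve Pool.Agent.H10

/-- `k` is unramified above three and contained in a Galois extension of the rationals whose degree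
is a power of three (so `k` is totally real). -/
def BaseField (k : Type) [Field k] [NumberField k] : Prop :=
  (∀ v : HeightOneSpectrum (𝓞 k), (3 : 𝓞 k) ∈ v.asIdeal → (3 : 𝓞 k) ∉ v.asIdeal ^ 2) ∧
  ∃ (F : Type) (_ : Field F) (_ : NumberField F), IsGalois ℚ F ∧
    (∃ m : ℕ, Module.finrank ℚ F = 3 ^ m) ∧ Nonempty (k →+* F)

/-- `L` is a totally real field between `k` and `k(ζ_{p^n})` for some `n`. -/
def Layer (p : ℕ) (k L : Type) [Field k] [NumberField k] [Field L] [NumberField L]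
    [Algebra k L] : Prop :=
  IsTotallyReal L ∧ ∃ n : ℕ, Nonempty (L →ₐ[k] CyclotomicField (p ^ (n + 1)) k)

/-- The curve `y^2 = x^3 + (a x + b)^2`, with the point `(0, b)` of order three. -/
def curve {K : Type} [Field K] (a b : K) : WeierstrassCurve K :=
  ⟨0, a ^ 2, 0, 2 * a * b, b ^ 2⟩

/-- The curve `y^2 = x^3 - 27 (a x + 27 b - 4 a^3)^2`, the quotient of `curve a b` by the group of
the point `(0, b)`. -/
def dual {K : Type} [Field K] (a b : K) : WeierstrassCurve K :=
  ⟨0, -27 * a ^ 2, 0, -54 * a * (27 * b - 4 * a ^ 3), -27 * (27 * b - 4 * a ^ 3) ^ 2⟩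

/-- Restriction is a bijection from the three-primary part of the Tate-Shafarevich group of `E`
over `K` to the one over `L`, and the group of the points over `K` has an exponent prime to three
in the group of the points over `L`. -/
def Stable (K L : Type) [Field K] [NumberField K] [Field L] [NumberField L] [Algebra K L]
    (E : WeierstrassCurve K) : Prop :=
  H55T3.ShaThreeBijective K E L ∧
    ∃ m : ℕ, ¬ 3 ∣ m ∧ ∀ P : (E.baseChange L).toAffine.Point,
      ∃ Q : (E.baseChange K).toAffine.Point,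
        m • P = WeierstrassCurve.Affine.Point.map (Algebra.ofId K L) Q

/-- `P` is a set of points which represents all classes modulo `3 E(L)`. -/
def RepresentsPoints (L : Type) [Field L] (W : WeierstrassCurve L)
    (P : Finset W.toAffine.Point) : Prop :=
  ∀ X : W.toAffine.Point, ∃ p ∈ P, ∃ S : W.toAffine.Point, X = p + 3 • S

/-- `T` is a set of cochains which represents all classes of the Tate-Shafarevich group which are
killed by three. -/
def RepresentsSha (L : Type) [Field L] [NumberField L] (W : WeierstrassCurve L)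
    (T : Finset ((AlgebraicClosure L ≃ₐ[L] AlgebraicClosure L) →
      (W.baseChange (AlgebraicClosure L)).toAffine.Point)) : Prop :=
  ∀ f, IsCocycle L W f → IsLocTriv L W f → IsCobound L W (fun σ => 3 • f σ) →
    ∃ t ∈ T, IsCobound L W (fun σ => f σ - t σ)

/-- The three-primary part of the Tate-Shafarevich group of `W` over `L` is zero. -/
def ShaThreeTrivial (L : Type) [Field L] [NumberField L] (W : WeierstrassCurve L) : Prop :=
  ∀ f, H55T3.IsShaThree L W f → IsCobound L W f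

/-- The good pairs `(a, b)` at a prime `v` above three: for some `i`, `a = 3^(i+1) a'` and
`b = 27^i b'` with `a'`, `b'` integral at `v`, `b'` congruent to `4 a'^3` modulo `9`, and not
divisible by `27`. -/
def Good {k : Type} [Field k] [NumberField k] (v : HeightOneSpectrum (𝓞 k)) (a b : 𝓞 k) : Prop :=
  ∃ i : ℕ, a ∈ v.asIdeal ^ (i + 1) ∧ 27 * b - 4 * a ^ 3 ∈ v.asIdeal ^ (3 * i + 5) ∧
    b ∉ v.asIdeal ^ (3 * i + 3)

theorem result :
    (∀ (p : ℕ) [Fact p.Prime], 5 ≤ p → ∀ (k : Type) [Field k] [NumberField k], BaseField k →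
      ∀ a b : 𝓞 k, b ≠ 0 → 27 * b - 4 * a ^ 3 ≠ 0 →
      ((∀ v : HeightOneSpectrum (𝓞 k), (3 : 𝓞 k) ∈ v.asIdeal → Good v a b) →
        ∃ N : ℕ, ∀ (K L : Type) [Field K] [NumberField K] [Field L] [NumberField L]
          [Algebra k K] [Algebra k L] [Algebra K L] [IsScalarTower k K L], Layer p k L →
          (∃ j : ℕ, Module.finrank K L = p ^ j) → p ^ N ∣ Module.finrank ℚ K →
          Stable K L (curve (algebraMap k K a) (algebraMap k K b)) ∧
            Stable K L (dual (algebraMap k K a) (algebraMap k K b)))) ∧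
    (∀ a b : ℤ, b ≠ 0 → 27 * b - 4 * a ^ 3 ≠ 0 →
      (∃ i : ℕ, (3 : ℤ) ^ (i + 1) ∣ a ∧ (3 : ℤ) ^ (3 * i + 5) ∣ 27 * b - 4 * a ^ 3 ∧
        ¬ (3 : ℤ) ^ (3 * i + 3) ∣ b) →
      (∀ q : ℕ, q.Prime → (q : ℤ) ∣ 6 * b * (27 * b - 4 * a ^ 3) → ¬ 25 ∣ q ^ 4 - 1) →
      ∀ (K L : Type) [Field K] [NumberField K] [Field L] [NumberField L] [Algebra K L],
        Layer 5 ℚ L → (∃ j : ℕ, Module.finrank K L = 5 ^ j) →
          Stable K L (curve (a : K) (b : K)) ∧ Stable K L (dual (a : K) (b : K))) ∧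
    (∀ (L : Type) [Field L] [NumberField L], Layer 5 ℚ L → (∃ j : ℕ, Module.finrank ℚ L = 5 ^ j) →
      (∀ q : ℕ, q.Prime → q ≠ 2 → (q % 9 = 2 ∨ q % 9 = 5) → ¬ 25 ∣ q ^ 4 - 1 →
        ShaThreeTrivial L (⟨0, 0, 0, 0, -48 * (q : L) ^ 2⟩ : WeierstrassCurve L) ∧
        Finite (⟨0, 0, 0, 0, -48 * (q : L) ^ 2⟩ : WeierstrassCurve L).toAffine.Point ∧
        ShaThreeTrivial L (⟨0, 0, 0, 0, (36 * (q : L)) ^ 2⟩ : WeierstrassCurve L)) ∧
      ShaThreeTrivial L (curve (-15) 715)) ∧
    (∃ P Q : (curve (-15 : ℚ) 715).toAffine.Point, ∀ m n : ℤ, m • P + n • Q = 0 → m = 0 ∧ n = 0) := by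
  have eW : ∀ {K : Type} [Field K] (a b : K), curve a b = H55T3.curW a b := fun _ _ => rfl
  have eV : ∀ {K : Type} [Field K] (a b : K), dual a b = H55T3.curV a (27 * b - 4 * a ^ 3) :=
    fun _ _ => rfl
  have hR : ∀ {L : Type} [Field L] [NumberField L], Layer 5 ℚ L → H5SW.IsR 5 L := by
    intro L _ _ hL
    obtain ⟨hreal, n, ⟨φ⟩⟩ := hL
    exact ⟨hreal, n, ⟨(φ : L →+* CyclotomicField (5 ^ (n + 1)) ℚ)⟩⟩
  refine ⟨?_, ?_, ?_, ?_⟩
  · intro p _ hp k _ _ hk a b hb hc
    intro hg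
    obtain ⟨N, hN⟩ := H55T3.towerK3 p hp hk.2 hk.1 hb hc hg
    refine ⟨N, ?_⟩
    intro K L _ _ _ _ _ _ _ _ hL hj hK
    have h := hN K L hL hj hK
    refine ⟨?_, ?_⟩
    · rw [eW]
      exact h _ (Or.inl rfl)
    · rw [eV]
      refine h _ (Or.inr ?_)
      congr 1
      have : ((27 * b - 4 * a ^ 3 : 𝓞 k) : k) = 27 * (b : k) - 4 * (a : k) ^ 3 := H55T3.coe_gamma
      rw [this, map_sub, map_mul, map_mul, map_pow, map_ofNat, map_ofNat]
  · intro a b hb hc hg hq K L _ _ _ _ _ hL ⟨j, hj⟩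
    obtain ⟨h3n, _, h⟩ := H55T3.explicit6 hb hc hg hq K L (hR hL) hj
    refine ⟨?_, ?_⟩
    · obtain ⟨h1, h2⟩ := h (curve (a : K) (b : K)) (Or.inl rfl)
      exact H55T3.of_ct3 h3n h1 h2
    · obtain ⟨h1, h2⟩ := h (dual (a : K) (b : K)) (Or.inr (by rw [eV]; push_cast; rfl))
      exact H55T3.of_ct3 h3n h1 h2
  · intro L _ _ hL ⟨j, hj⟩
    exact ⟨fun q hq hq2 h9 h25 => H55T3.fam1 hq hq2 h9 h25 (hR hL) hj, H55T3.fam2 (hR hL) hj⟩
  · exact H55T3.rank2

end Pool.Agent.H55.Draft
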